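import Pool.Agent.Q47.PosPoly.Poly

/-!
# A disconnected positive polytope in `Gr(2,4)`

All definitions are in `Pool.Agent.Q47.PosPoly.Defs`.

With `h = 4 p₁₂ + 4 p₃₄ - 5 p₁₃ - 5 p₂₄ - 3 p₁₄ - 3 p₂₃` the simple polytope
`P = {p_{ij} ≥ 0, h ≥ 0}` meets `Gr(2,4)` in a positive polytope (`m = 1`, a positive
pentahedron) which is disconnected: on it `p₁₂p₃₄ ≤ p₁₃p₂₄` and `p₁₃ + p₂₄ ≤ 4/5 (p₁₂ + p₃₄)`,
so `p₁₂ ≠ p₃₄`.
-/

namespace Pool.Agent.Results.MP_7a7825_ag.DisconnectedPentahedron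

open Q47.PosPoly

/-- There is a positive polytope in `Gr(2,4)` (with `m = 1`, i.e. a positive pentahedron) which is
not connected; in particular it is not contractible. -/
theorem result :
    ∃ S : Set PP, IsPositivePolytope 1 S ∧ S.Nonempty ∧ ¬ IsPreconnected S ∧
      ¬ ContractibleSpace S := by
  refine ⟨S0, positivePolytope, ⟨_, Uset_subset _ (wit_mem (Sum.inr 0))⟩, not_preconnected, ?_⟩
  intro h
  apply not_preconnected
  have h1 : ConnectedSpace S0 := inferInstance
  exact (isConnected_iff_connectedSpace.2 h1).isPreconnected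

end Pool.Agent.Results.MP_7a7825_ag.DisconnectedPentahedron
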